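import Mathlib

set_option autoImplicit false

/-!
# Cohen-Macaulay rings and the variety of commuting tuples in the strictly upper triangular matrices

Definitions for MP_5f3851_al.
-/

namespace Pool.Agent.H989R3.CMF

/-- A local ring is Cohen-Macaulay if its maximal ideal contains a regular sequence whose length
is the Krull dimension. -/
def IsCMLocal (A : Type) [CommRing A] [IsLocalRing A] : Prop :=
  ∃ rs : List A, (∀ x ∈ rs, x ∈ IsLocalRing.maximalIdeal A) ∧
    RingTheory.Sequence.IsRegular A rs ∧ ringKrullDim A = rs.length

/-- A (Noetherian) ring is Cohen-Macaulay if its localisations at the maximal ideals are. -/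
def IsCM (H : Type) [CommRing H] : Prop :=
  ∀ (m : Ideal H) [m.IsMaximal], IsCMLocal (Localization.AtPrime m)

/-- The generic strictly upper triangular `4 × 4` matrices `X_a`, `a < r`, with entries the
variables `(a, i, j)`, `i < j`. -/
noncomputable def gen (k : Type) [Field k] (r : ℕ) (a : Fin r) :
    Matrix (Fin 4) (Fin 4) (MvPolynomial (Fin r × Fin 4 × Fin 4) k) :=
  fun i j => if i < j then MvPolynomial.X (a, i, j) else 0

/-- The ideal of the polynomial ring generated by the variables `(a, i, j)` that are not above the
diagonal and by the entries of all commutators `X_a X_b - X_b X_a`. -/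
noncomputable def commIdeal (k : Type) [Field k] (r : ℕ) :
    Ideal (MvPolynomial (Fin r × Fin 4 × Fin 4) k) :=
  Ideal.span ({f | ∃ a i j, ¬ i < j ∧ f = MvPolynomial.X (a, i, j)} ∪
    {f | ∃ a b i j, f = (gen k r a * gen k r b - gen k r b * gen k r a) i j})

end Pool.Agent.H989R3.CMF
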