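import Mathlib
import Pool.Agent.H989R3.CMF.Defs

set_option autoImplicit false

namespace Pool.Agent.H989R3.CMF

variable {k : Type} [Field k] {r : ℕ}

/-- the polynomial ring -/
abbrev SS (k : Type) [Field k] (r : ℕ) : Type := MvPolynomial (Fin r × Fin 4 × Fin 4) k

/-- the three equations for a pair of strictly upper triangular matrices with entries `u`, `v` -/
def Eqs {T : Type} [CommRing T] (u v : Fin 4 → Fin 4 → T) : Prop :=
  u 0 1 * v 1 2 - v 0 1 * u 1 2 = 0 ∧ u 1 2 * v 2 3 - v 1 2 * u 2 3 = 0 ∧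
    u 0 1 * v 1 3 + u 0 2 * v 2 3 - (v 0 1 * u 1 3 + v 0 2 * u 2 3) = 0

theorem eqs_of_le {T : Type} [CommRing T] [Algebra k T] (f : SS k r →ₐ[k] T)
    (h : commIdeal k r ≤ RingHom.ker f) (a b : Fin r) :
    Eqs (fun i j => f (MvPolynomial.X (a, i, j))) (fun i j => f (MvPolynomial.X (b, i, j))) := by
  have h1 : ∀ i j, f ((gen k r a * gen k r b - gen k r b * gen k r a) i j) = 0 := by
    intro i j
    have : (gen k r a * gen k r b - gen k r b * gen k r a) i j ∈ commIdeal k r :=
      Ideal.subset_span (Or.inr ⟨a, b, i, j, rfl⟩)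
    exact h this
  refine ⟨?_, ?_, ?_⟩
  · have := h1 0 2
    simpa [gen, Matrix.sub_apply, Matrix.mul_apply, Fin.sum_univ_four] using this
  · have := h1 1 3
    simpa [gen, Matrix.sub_apply, Matrix.mul_apply, Fin.sum_univ_four] using this
  · have := h1 0 3
    simpa [gen, Matrix.sub_apply, Matrix.mul_apply, Fin.sum_univ_four] using this

theorem le_of_eqs {T : Type} [CommRing T] [Algebra k T] (f : SS k r →ₐ[k] T)
    (h0 : ∀ a i j, ¬ i < j → f (MvPolynomial.X (a, i, j)) = 0)
    (h : ∀ a b, Eqs (fun i j => f (MvPolynomial.X (a, i, j)))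
      (fun i j => f (MvPolynomial.X (b, i, j)))) :
    commIdeal k r ≤ RingHom.ker f := by
  unfold commIdeal
  rw [Ideal.span_le]
  rintro g (⟨a, i, j, hij, rfl⟩ | ⟨a, b, i, j, rfl⟩)
  · exact h0 a i j hij
  · change f ((gen k r a * gen k r b - gen k r b * gen k r a) i j) = 0
    obtain ⟨h1, h2, h3⟩ := h a b
    fin_cases i <;> fin_cases j <;>
      simp [gen, Matrix.sub_apply, Matrix.mul_apply, Fin.sum_univ_four] <;>
      first | exact h1 | exact h2 | exact h3

end Pool.Agent.H989R3.CMF
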