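import Mathlib

set_option autoImplicit false

/-!
# Depth is at most the dimension of `A / P` for every associated prime `P`
-/

namespace Pool.Agent.H989R3.CMF

open IsLocalRing RingTheory.Sequence Pointwise

theorem exists_assoc_lt {A M : Type} [CommRing A] [IsNoetherianRing A] [IsLocalRing A]
    [AddCommGroup M] [Module A M] [Module.Finite A M] (x : A)
    (hx : x ∈ maximalIdeal A) (hreg : IsSMulRegular M x) (P : Ideal A)
    (hP : IsAssociatedPrime P M) :
    ∃ Q : Ideal A, IsAssociatedPrime Q (QuotSMulTop x M) ∧ P < Q := by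
  obtain ⟨hprime, m, hm⟩ := isAssociatedPrime_iff.mp hP
  let N : Submodule A M :=
    { carrier := {n | ∀ a ∈ P, a • n = 0}
      zero_mem' := fun a _ => smul_zero a
      add_mem' := by
        intro u v hu hv a ha
        rw [smul_add, hu a ha, hv a ha, add_zero]
      smul_mem' := by
        intro c u hu a ha
        rw [smul_comm, hu a ha, smul_zero] }
  have hmP : ∀ a, a ∈ P ↔ a • m = 0 := by
    intro a
    rw [hm, Submodule.mem_colon_singleton, Submodule.mem_bot]
  have hmN : m ∈ N := fun a ha => (hmP a).mp ha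
  have hm0 : m ≠ 0 := by
    rintro rfl
    apply hprime.ne_top
    rw [Ideal.eq_top_iff_one, hmP, smul_zero]
  have hN : ¬ N ≤ x • (⊤ : Submodule A M) := by
    intro hle
    have h1 : N ≤ (Ideal.span {x}) • N := by
      intro n hn
      obtain ⟨n', _, hn'⟩ := (Submodule.mem_smul_pointwise_iff_exists _ _ _).mp (hle hn)
      rw [← hn']
      refine Submodule.smul_mem_smul (Ideal.mem_span_singleton_self x) ?_
      intro a ha
      apply hreg
      change x • (a • n') = x • 0
      rw [smul_zero, smul_comm, hn']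
      exact hn a ha
    have h2 : N = ⊥ := by
      apply Submodule.eq_bot_of_le_smul_of_le_jacobson_bot (Ideal.span {x}) N
        (IsNoetherian.noetherian N) h1
      rw [IsLocalRing.jacobson_eq_maximalIdeal ⊥ bot_ne_top, Ideal.span_singleton_le_iff_mem]
      exact hx
    rw [h2, Submodule.mem_bot] at hmN
    exact hm0 hmN
  obtain ⟨n, hn, hnx⟩ := SetLike.not_le_iff_exists.mp hN
  let y : QuotSMulTop x M := Submodule.Quotient.mk n
  have hy : y ≠ 0 := by
    intro h
    exact hnx ((Submodule.Quotient.mk_eq_zero _).mp h)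
  obtain ⟨Q, hQ, hyQ⟩ := exists_le_isAssociatedPrime_of_isNoetherianRing A y hy
  refine ⟨Q, hQ, ?_⟩
  have hPQ : P ≤ Q := by
    intro a ha
    apply hyQ
    rw [Submodule.mem_colon_singleton, Submodule.mem_bot]
    change a • (Submodule.Quotient.mk n : M ⧸ (x • (⊤ : Submodule A M))) = 0
    rw [← Submodule.Quotient.mk_smul, hn a ha, Submodule.Quotient.mk_zero]
  refine lt_of_le_of_ne hPQ ?_
  rintro rfl
  have hxQ : x ∈ P := by
    apply hyQ
    rw [Submodule.mem_colon_singleton, Submodule.mem_bot]
    change x • (Submodule.Quotient.mk n : M ⧸ (x • (⊤ : Submodule A M))) = 0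
    rw [← Submodule.Quotient.mk_smul, Submodule.Quotient.mk_eq_zero]
    exact Submodule.smul_mem_pointwise_smul n x ⊤ trivial
  apply hm0
  apply hreg
  change x • m = x • 0
  rw [(hmP x).mp hxQ, smul_zero]

theorem length_le_coheight {A : Type} [CommRing A] [IsNoetherianRing A] [IsLocalRing A]
    (rs : List A) (hrs : ∀ x ∈ rs, x ∈ maximalIdeal A) :
    ∀ (M : Type) [AddCommGroup M] [Module A M] [Module.Finite A M], IsWeaklyRegular M rs →
      ∀ (P : PrimeSpectrum A), IsAssociatedPrime P.asIdeal M →
        (rs.length : ℕ∞) ≤ Order.coheight P := by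
  induction rs with
  | nil =>
    intro M _ _ _ _ P _
    simp
  | cons x rs ih =>
    intro M _ _ _ hr P hP
    rw [isWeaklyRegular_cons_iff] at hr
    obtain ⟨Q, hQ, hlt⟩ := exists_assoc_lt x (hrs x (by simp)) hr.1 P.asIdeal hP
    have h1 := ih (fun z hz => hrs z (by simp [hz])) (QuotSMulTop x M) hr.2 ⟨Q, hQ.1⟩ hQ
    have h2 : P < (⟨Q, hQ.1⟩ : PrimeSpectrum A) := hlt
    have h3 := Order.coheight_add_one_le h2
    calc ((x :: rs).length : ℕ∞) = rs.length + 1 := by simp
      _ ≤ Order.coheight (⟨Q, hQ.1⟩ : PrimeSpectrum A) + 1 := by gcongr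
      _ ≤ _ := h3

end Pool.Agent.H989R3.CMF
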