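import Mathlib

set_option autoImplicit false

namespace Pool.Agent.H989R3.CMF

theorem dim_le_of_integral {A B : Type} [CommRing A] [CommRing B] (f : A →+* B)
    (hf : f.IsIntegral) : ringKrullDim B ≤ ringKrullDim A := by
  algebraize [f]
  have : Algebra.IsIntegral A B := ⟨hf⟩
  apply Order.krullDim_le_of_strictMono (PrimeSpectrum.comap f)
  intro Q Q' h
  exact Ideal.IsIntegral.comap_lt_comap (R := A) (A := B) h

theorem coheight_eq_dim {R : Type} [CommRing R] (P : PrimeSpectrum R) :
    (Order.coheight P : WithBot ℕ∞) = ringKrullDim (R ⧸ P.asIdeal) := by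
  rw [ringKrullDim_quotient, Order.coheight_eq_krullDim_Ici]
  apply Order.krullDim_eq_of_orderIso
  refine OrderIso.setCongr _ _ ?_
  ext Q
  rfl

/-- the dimension of a point of `Spec R` whose residue ring embeds in a polynomial ring -/
theorem coheight_le {k : Type} [Field k] {R : Type} [CommRing R] [Algebra k R]
    [Algebra.FiniteType k R] {τ : Type} [Fintype τ] (g : R →ₐ[k] MvPolynomial τ k)
    (P : PrimeSpectrum R) (hP : P.asIdeal = RingHom.ker g) :
    Order.coheight P ≤ Fintype.card τ := by
  have : Nontrivial (R ⧸ P.asIdeal) := Ideal.Quotient.nontrivial_iff.mpr P.2.ne_top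
  obtain ⟨s, h, hinj, hint⟩ := exists_integral_inj_algHom_of_fg k (R ⧸ P.asIdeal)
  have h1 : ringKrullDim (R ⧸ P.asIdeal) ≤ s := by
    calc ringKrullDim (R ⧸ P.asIdeal) ≤ ringKrullDim (MvPolynomial (Fin s) k) :=
          dim_le_of_integral h.toRingHom hint
      _ = s := by
        rw [MvPolynomial.ringKrullDim_of_isNoetherianRing, ringKrullDim_eq_zero_of_field]
        simp
  let g' : (R ⧸ P.asIdeal) →ₐ[k] MvPolynomial τ k :=
    Ideal.Quotient.liftₐ P.asIdeal g (by
      intro a ha
      rw [hP] at ha
      exact ha)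
  have hg' : Function.Injective g' := by
    rw [injective_iff_map_eq_zero]
    intro a ha
    obtain ⟨b, rfl⟩ := Ideal.Quotient.mk_surjective a
    rw [Ideal.Quotient.eq_zero_iff_mem, hP]
    exact ha
  have h2 := trdeg_le_of_injective (g'.comp h) (hg'.comp hinj)
  rw [MvPolynomial.trdeg_of_isDomain, MvPolynomial.trdeg_of_isDomain] at h2
  have h3 : s ≤ Fintype.card τ := by
    simpa using h2
  have h4 : (Order.coheight P : WithBot ℕ∞) ≤ (Fintype.card τ : ℕ∞) := by
    rw [coheight_eq_dim]
    refine h1.trans ?_
    exact_mod_cast h3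
  exact_mod_cast h4

/-- set the variables in `s` to zero -/
noncomputable def ev (k : Type) [Field k] {σ : Type} [DecidableEq σ] (s : Finset σ) :
    MvPolynomial σ k →ₐ[k] MvPolynomial σ k :=
  MvPolynomial.aeval fun i => if i ∈ s then 0 else MvPolynomial.X i

theorem le_height {k : Type} [Field k] {R : Type} [CommRing R] {σ : Type} [DecidableEq σ]
    (θ : R →+* MvPolynomial σ k) (hθ : Function.Surjective θ) (s : Finset σ) :
    (s.card : ℕ∞) ≤ Order.height (⟨RingHom.ker ((ev k s).toRingHom.comp θ),
      RingHom.ker_isPrime _⟩ : PrimeSpectrum R) := by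
  induction s using Finset.induction_on with
  | empty => simp
  | insert i s hi ih =>
    rw [Finset.card_insert_of_notMem hi]
    have hlt : (⟨RingHom.ker ((ev k s).toRingHom.comp θ), RingHom.ker_isPrime _⟩ :
        PrimeSpectrum R) < ⟨RingHom.ker ((ev k (insert i s)).toRingHom.comp θ),
          RingHom.ker_isPrime _⟩ := by
      have hcomp : (ev k (insert i s)) = (ev k (insert i s)).comp (ev k s) := by
        apply MvPolynomial.algHom_ext
        intro j
        simp only [ev, AlgHom.comp_apply, MvPolynomial.aeval_X]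
        by_cases hj : j ∈ s
        · rw [if_pos hj, if_pos (Finset.mem_insert_of_mem hj), map_zero]
        · rw [if_neg hj, MvPolynomial.aeval_X]
      refine lt_of_le_of_ne ?_ ?_
      · intro x hx
        change ev k (insert i s) (θ x) = 0
        have hx' : ev k s (θ x) = 0 := hx
        rw [hcomp, AlgHom.comp_apply, hx', map_zero]
      · intro heq
        obtain ⟨x, hx⟩ := hθ (MvPolynomial.X i)
        have h1 : x ∈ RingHom.ker ((ev k (insert i s)).toRingHom.comp θ) := by
          change ev k (insert i s) (θ x) = 0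
          rw [hx, ev, MvPolynomial.aeval_X, if_pos (Finset.mem_insert_self i s)]
        have h2 : x ∈ RingHom.ker ((ev k s).toRingHom.comp θ) := by
          have := congrArg PrimeSpectrum.asIdeal heq
          simp only at this
          rw [this]
          exact h1
        have h3 : ev k s (θ x) = 0 := h2
        rw [hx, ev, MvPolynomial.aeval_X, if_neg hi] at h3
        exact MvPolynomial.X_ne_zero i h3
    calc ((s.card + 1 : ℕ) : ℕ∞) = s.card + 1 := by simp
      _ ≤ _ + 1 := by gcongr
      _ ≤ _ := Order.height_add_one_le hlt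

end Pool.Agent.H989R3.CMF
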