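import Mathlib
import Pool.Agent.H989R3.CMF.Defs
import Pool.Agent.H989R3.CMF.Depth

set_option autoImplicit false

namespace Pool.Agent.H989R3.CMF

open IsLocalRing RingTheory.Sequence

theorem not_isCM {H R : Type} [CommRing H] [CommRing R] [IsNoetherianRing H] (ψ : H →+* R)
    (hψ : ∀ x : R, ∃ n > 0, x ^ n ∈ ψ.range) (hker : RingHom.ker ψ ≤ nilradical H)
    (P m : PrimeSpectrum R) (hP : IsMin P) (hm : IsMax m) (hPm : P ≤ m) (a b : ℕ) (hab : a < b)
    (ha : Order.coheight P ≤ a) (hb : (b : ℕ∞) ≤ Order.height m) : ¬ IsCM H := by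
  intro hcm
  have hbij := (PrimeSpectrum.isHomeomorph_comap ψ hψ hker).bijective
  have hrefl : ∀ Q Q' : PrimeSpectrum R, PrimeSpectrum.comap ψ Q ≤ PrimeSpectrum.comap ψ Q' ↔
      Q ≤ Q' := by
    intro Q Q'
    constructor
    · intro h x hx
      obtain ⟨n, hn, y, hy⟩ := hψ x
      have h1 : y ∈ (PrimeSpectrum.comap ψ Q).asIdeal := by
        change ψ y ∈ Q.asIdeal
        rw [hy]
        exact (Q.2.pow_mem_iff_mem _ hn).mpr hx
      have h2 : ψ y ∈ Q'.asIdeal := h h1
      rw [hy] at h2
      exact (Q'.2.pow_mem_iff_mem _ hn).mp h2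
    · intro h x hx
      exact h hx
  let e : PrimeSpectrum R ≃o PrimeSpectrum H :=
    { Equiv.ofBijective _ hbij with map_rel_iff' := hrefl _ _ }
  set m' : PrimeSpectrum H := e m with hm'
  set P' : PrimeSpectrum H := e P with hP'
  have hmax : IsMax m' := by
    intro q hq
    have h1 : m ≤ e.symm q := (OrderIso.le_symm_apply e).mpr hq
    have h2 := hm h1
    exact (OrderIso.symm_apply_le e).mp h2
  have hmin : IsMin P' := by
    intro q hq
    have h1 : e.symm q ≤ P := (OrderIso.symm_apply_le e).mpr hq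
    have h2 := hP h1
    exact (OrderIso.le_symm_apply e).mp h2
  have hPm' : P' ≤ m' := e.monotone hPm
  haveI hmm : m'.asIdeal.IsMaximal := PrimeSpectrum.isMax_iff.mp hmax
  let A := Localization.AtPrime m'.asIdeal
  haveI : IsNoetherianRing A := IsLocalization.isNoetherianRing m'.asIdeal.primeCompl A inferInstance
  obtain ⟨rs, hrs, hreg, hdim⟩ := hcm m'.asIdeal
  let c : PrimeSpectrum A → PrimeSpectrum H := PrimeSpectrum.comap (algebraMap H A)
  have hcinj : Function.Injective c :=
    PrimeSpectrum.localization_comap_injective A m'.asIdeal.primeCompl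
  have hcmono : Monotone c := fun Q Q' h x hx => h hx
  have hcstr : StrictMono c := hcmono.strictMono_of_injective hcinj
  obtain ⟨PA, hPA⟩ : ∃ PA : PrimeSpectrum A, c PA = P' := by
    have h1 := PrimeSpectrum.localization_comap_range A m'.asIdeal.primeCompl
    have h2 : P' ∈ Set.range (PrimeSpectrum.comap (algebraMap H A)) := by
      rw [h1]
      rw [Set.mem_setOf_eq, Set.disjoint_left]
      intro x hx hxP
      exact hx (hPm' hxP)
    exact h2
  have hPAmin : PA.asIdeal ∈ (⊥ : Ideal A).minimalPrimes := by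
    refine ⟨⟨PA.2, bot_le⟩, ?_⟩
    rintro q ⟨hq, _⟩ hle
    have h1 : c ⟨q, hq⟩ ≤ P' := by
      rw [← hPA]
      exact hcmono (show (⟨q, hq⟩ : PrimeSpectrum A) ≤ PA from hle)
    have h2 : c ⟨q, hq⟩ = P' := le_antisymm h1 (hmin h1)
    have h3 : (⟨q, hq⟩ : PrimeSpectrum A) = PA := hcinj (h2.trans hPA.symm)
    rw [← h3]
  have hass : IsAssociatedPrime PA.asIdeal A := by
    have h1 : Module.annihilator A A = ⊥ := by
      rw [Module.annihilator_eq_bot]
      infer_instance
    have h2 := Module.associatedPrimes.minimalPrimes_annihilator_subset_associatedPrimes A A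
    rw [h1] at h2
    exact h2 hPAmin
  have h1 := length_le_coheight rs hrs A hreg.toIsWeaklyRegular PA hass
  have h2 : Order.coheight PA ≤ a := by
    calc Order.coheight PA ≤ Order.coheight (c PA) :=
          Order.coheight_le_coheight_apply_of_strictMono c hcstr PA
      _ = Order.coheight P := by rw [hPA, hP', Order.coheight_orderIso]
      _ ≤ a := ha
  have h3 : ringKrullDim A = m'.asIdeal.height :=
    IsLocalization.AtPrime.ringKrullDim_eq_height m'.asIdeal A
  have h4 : m'.asIdeal.height = Order.height m := by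
    rw [PrimeSpectrum.height_eq_orderHeight, hm', Order.height_orderIso]
  have h5 : (rs.length : WithBot ℕ∞) = (Order.height m : ℕ∞) := by
    rw [← hdim]
    exact h3.trans (by rw [h4])
  have h6 : (rs.length : ℕ∞) = Order.height m := by exact_mod_cast h5
  have h7 : (b : ℕ∞) ≤ a := by
    calc (b : ℕ∞) ≤ Order.height m := hb
      _ = rs.length := h6.symm
      _ ≤ Order.coheight PA := h1
      _ ≤ a := h2
  have h8 : b ≤ a := by exact_mod_cast h7
  omega

end Pool.Agent.H989R3.CMF
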