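import Mathlib
import Pool.Agent.H989R3.CMF.Comm

set_option autoImplicit false

namespace Pool.Agent.H989R3.CMF

variable {k : Type} [Field k]

/-- the entries of `α x + β x^2 + γ x^3` for a strictly upper triangular `4 × 4` matrix `x`
with entries `x 0, x 1, x 2` next to the diagonal -/
def EE {T : Type} [CommRing T] (x : Fin 6 → T) (c : Fin 3 → T) (i j : Fin 4) : T :=
  if i = 0 ∧ j = 1 then c 0 * x 0 else
  if i = 1 ∧ j = 2 then c 0 * x 1 else
  if i = 2 ∧ j = 3 then c 0 * x 2 else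
  if i = 0 ∧ j = 2 then c 0 * x 3 + c 1 * (x 0 * x 1) else
  if i = 1 ∧ j = 3 then c 0 * x 4 + c 1 * (x 1 * x 2) else
  if i = 0 ∧ j = 3 then c 0 * x 5 + c 1 * (x 0 * x 4 + x 3 * x 2) + c 2 * (x 0 * x 1 * x 2) else 0

theorem EE_zero {T : Type} [CommRing T] (x : Fin 6 → T) (c : Fin 3 → T) (i j : Fin 4)
    (h : ¬ i < j) : EE x c i j = 0 := by
  unfold EE
  fin_cases i <;> fin_cases j <;> simp at h ⊢

theorem EE_eqs {T : Type} [CommRing T] (x : Fin 6 → T) (c d : Fin 3 → T) :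
    Eqs (EE x c) (EE x d) := by
  refine ⟨?_, ?_, ?_⟩
  · simp [EE]; ring
  · simp [EE]; ring
  · simp [EE]; ring

theorem map_EE {T T' : Type} [CommRing T] [CommRing T'] (f : T →+* T') (x : Fin 6 → T)
    (c : Fin 3 → T) (i j : Fin 4) :
    f (EE x c i j) = EE (fun t => f (x t)) (fun t => f (c t)) i j := by
  unfold EE
  split_ifs <;> simp

/-- the coefficients -/
def cc {T : Type} [CommRing T] {q : ℕ} (c : Fin q → Fin 3 → T) (a : Fin (q + 1)) : Fin 3 → T :=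
  Fin.cases (fun t => if t = 0 then 1 else 0) c a

theorem map_cc {T T' : Type} [CommRing T] [CommRing T'] (f : T →+* T') {q : ℕ}
    (c : Fin q → Fin 3 → T) (a : Fin (q + 1)) :
    (fun t => f (cc c a t)) = cc (fun b t => f (c b t)) a := by
  funext t
  refine Fin.cases ?_ (fun b => ?_) a
  · simp only [cc, Fin.cases_zero]
    split_ifs <;> simp
  · simp only [cc, Fin.cases_succ]

/-- index set of the parameters -/
abbrev TT (q : ℕ) : Type := Fin 6 ⊕ (Fin q × Fin 3)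

/-- the parametrisation of the regular component -/
noncomputable def phi (k : Type) [Field k] (q : ℕ) : SS k (q + 1) →ₐ[k] MvPolynomial (TT q) k :=
  MvPolynomial.aeval fun v => EE (fun t => MvPolynomial.X (Sum.inl t))
    (cc (fun b t => MvPolynomial.X (Sum.inr (b, t))) v.1) v.2.1 v.2.2

theorem phi_le (k : Type) [Field k] (q : ℕ) : commIdeal k (q + 1) ≤ RingHom.ker (phi k q) := by
  apply le_of_eqs
  · intro a i j hij
    rw [phi, MvPolynomial.aeval_X]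
    exact EE_zero _ _ _ _ hij
  · intro a b
    simp only [phi, MvPolynomial.aeval_X]
    exact EE_eqs _ _ _

theorem solve {K : Type} [Field K] (x0 x1 x2 x3 x4 x5 y0 y1 y2 y3 y4 y5 : K) (h0 : x0 ≠ 0)
    (h1 : x1 ≠ 0) (h2 : x2 ≠ 0) (e1 : x0 * y1 - y0 * x1 = 0) (e2 : x1 * y2 - y1 * x2 = 0)
    (e3 : x0 * y4 + x3 * y2 - (y0 * x4 + y3 * x2) = 0) :
    ∃ α β γ : K, y0 = α * x0 ∧ y1 = α * x1 ∧ y2 = α * x2 ∧ y3 = α * x3 + β * (x0 * x1) ∧
      y4 = α * x4 + β * (x1 * x2) ∧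
      y5 = α * x5 + β * (x0 * x4 + x3 * x2) + γ * (x0 * x1 * x2) := by
  obtain ⟨α, hα⟩ : ∃ α, y0 = α * x0 := ⟨y0 / x0, by field_simp⟩
  obtain ⟨β, hβ⟩ : ∃ β, y3 - α * x3 = β * (x0 * x1) := ⟨(y3 - α * x3) / (x0 * x1), by field_simp⟩
  obtain ⟨γ, hγ⟩ : ∃ γ, y5 - α * x5 - β * (x0 * x4 + x3 * x2) = γ * (x0 * x1 * x2) :=
    ⟨(y5 - α * x5 - β * (x0 * x4 + x3 * x2)) / (x0 * x1 * x2), by field_simp⟩
  have hy1 : y1 = α * x1 := by
    apply mul_left_cancel₀ h0
    linear_combination e1 + x1 * hα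
  have hy2 : y2 = α * x2 := by
    apply mul_left_cancel₀ h1
    linear_combination e2 + x2 * hy1
  refine ⟨α, β, γ, hα, hy1, hy2, by linear_combination hβ, ?_, by linear_combination hγ⟩
  apply mul_left_cancel₀ h0
  linear_combination e3 + x4 * hα + x2 * hβ - x3 * hy2

theorem factor (q : ℕ) {K : Type} [Field K] [Algebra k K] (f : SS k (q + 1) →ₐ[k] K)
    (hf : commIdeal k (q + 1) ≤ RingHom.ker f) (h0 : f (MvPolynomial.X (0, 0, 1)) ≠ 0)
    (h1 : f (MvPolynomial.X (0, 1, 2)) ≠ 0) (h2 : f (MvPolynomial.X (0, 2, 3)) ≠ 0) :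
    ∃ δ : MvPolynomial (TT q) k →ₐ[k] K, δ.comp (phi k q) = f := by
  have hz : ∀ a i j, ¬ i < j → f (MvPolynomial.X (a, i, j)) = 0 := by
    intro a i j hij
    exact hf (Ideal.subset_span (Or.inl ⟨a, i, j, hij, rfl⟩))
  have hs : ∀ b : Fin q, ∃ c : Fin 3 → K, ∀ i j, f (MvPolynomial.X (b.succ, i, j)) =
      EE ![f (MvPolynomial.X (0, 0, 1)), f (MvPolynomial.X (0, 1, 2)),
        f (MvPolynomial.X (0, 2, 3)), f (MvPolynomial.X (0, 0, 2)),
        f (MvPolynomial.X (0, 1, 3)), f (MvPolynomial.X (0, 0, 3))] c i j := by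
    intro b
    obtain ⟨e1, e2, e3⟩ := eqs_of_le f hf 0 b.succ
    obtain ⟨α, β, γ, g0, g1, g2, g3, g4, g5⟩ := solve _ _ _
      (f (MvPolynomial.X (0, 0, 2))) (f (MvPolynomial.X (0, 1, 3)))
      (f (MvPolynomial.X (0, 0, 3))) _ _ _ _ _ (f (MvPolynomial.X (b.succ, 0, 3)))
      h0 h1 h2 e1 e2 e3
    refine ⟨![α, β, γ], ?_⟩
    intro i j
    by_cases hij : i < j
    · fin_cases i <;> fin_cases j <;> simp at hij <;> simp [EE] <;>
        first | exact g0 | exact g1 | exact g2 | exact g3 | exact g4 | exact g5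
    · rw [hz _ _ _ hij, EE_zero _ _ _ _ hij]
  choose c hc using hs
  refine ⟨MvPolynomial.aeval (Sum.elim ![f (MvPolynomial.X (0, 0, 1)),
    f (MvPolynomial.X (0, 1, 2)), f (MvPolynomial.X (0, 2, 3)), f (MvPolynomial.X (0, 0, 2)),
    f (MvPolynomial.X (0, 1, 3)), f (MvPolynomial.X (0, 0, 3))] (fun v => c v.1 v.2)), ?_⟩
  apply MvPolynomial.algHom_ext
  rintro ⟨a, i, j⟩
  rw [AlgHom.comp_apply, phi, MvPolynomial.aeval_X]
  have h3 := map_EE (MvPolynomial.aeval (R := k) (Sum.elim ![f (MvPolynomial.X (0, 0, 1)),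
    f (MvPolynomial.X (0, 1, 2)), f (MvPolynomial.X (0, 2, 3)), f (MvPolynomial.X (0, 0, 2)),
    f (MvPolynomial.X (0, 1, 3)), f (MvPolynomial.X (0, 0, 3))]
      (fun v => c v.1 v.2)) : MvPolynomial (TT q) k →ₐ[k] K).toRingHom
      (fun t => MvPolynomial.X (Sum.inl t))
      (cc (fun b t => MvPolynomial.X (Sum.inr (b, t))) a) i j
  rw [map_cc] at h3
  refine (Eq.trans h3 ?_)
  simp only [AlgHom.toRingHom_eq_coe, RingHom.coe_coe, MvPolynomial.aeval_X, Sum.elim_inl,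
    Sum.elim_inr]
  refine Fin.cases ?_ (fun b => ?_) a
  · simp only [cc, Fin.cases_zero]
    by_cases hij : i < j
    · fin_cases i <;> fin_cases j <;> simp at hij <;> simp [EE]
    · rw [hz _ _ _ hij, EE_zero _ _ _ _ hij]
  · simp only [cc, Fin.cases_succ]
    exact (hc b i j).symm

end Pool.Agent.H989R3.CMF
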