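import Mathlib
import Pool.Agent.H989R3.CMF.Reg
import Pool.Agent.H989R3.CMF.Dim
import Pool.Agent.H989R3.CMF.General

set_option autoImplicit false

namespace Pool.Agent.H989R3.CMF

variable {k : Type} [Field k]

/-- the linear component -/
noncomputable def theta (k : Type) [Field k] (r : ℕ) :
    SS k r →ₐ[k] MvPolynomial (Fin r × Fin 2 × Fin 2) k :=
  MvPolynomial.aeval fun v => if h : v.2.1.1 < 2 ∧ 2 ≤ v.2.2.1 then
    MvPolynomial.X (v.1, ⟨v.2.1.1, h.1⟩, ⟨v.2.2.1 - 2, by omega⟩) else 0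

theorem theta_le (k : Type) [Field k] (r : ℕ) : commIdeal k r ≤ RingHom.ker (theta k r) := by
  apply le_of_eqs
  · intro a i j hij
    rw [theta, MvPolynomial.aeval_X]
    apply dif_neg
    rintro ⟨h1, h2⟩
    apply hij
    simp only at h1 h2
    exact Fin.lt_def.mpr (by omega)
  · intro a b
    simp only [theta, MvPolynomial.aeval_X]
    refine ⟨?_, ?_, ?_⟩ <;> simp

theorem theta_surj (k : Type) [Field k] (r : ℕ) : Function.Surjective (theta k r) := by
  rw [← AlgHom.range_eq_top, ← top_le_iff, ← MvPolynomial.adjoin_range_X, Algebra.adjoin_le_iff]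
  rintro _ ⟨⟨a, i, j⟩, rfl⟩
  refine ⟨MvPolynomial.X (a, ⟨i.1, by omega⟩, ⟨j.1 + 2, by omega⟩), ?_⟩
  change theta k r _ = _
  rw [theta, MvPolynomial.aeval_X, dif_pos ⟨i.2, by simp⟩]
  rfl

/-- homs that kill the ideal factor through the reduced quotient -/
noncomputable def bar {r : ℕ} {T : Type} [CommRing T] [IsDomain T] [Algebra k T]
    (f : SS k r →ₐ[k] T) (hf : commIdeal k r ≤ RingHom.ker f) :
    (SS k r ⧸ (commIdeal k r).radical) →ₐ[k] T :=
  Ideal.Quotient.liftₐ _ f (by
    have h1 : (commIdeal k r).radical ≤ RingHom.ker f :=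
      (RingHom.ker_isPrime f.toRingHom).radical_le_iff.mpr hf
    intro a ha
    exact h1 ha)

theorem bar_mk {r : ℕ} {T : Type} [CommRing T] [IsDomain T] [Algebra k T]
    (f : SS k r →ₐ[k] T) (hf : commIdeal k r ≤ RingHom.ker f) (a : SS k r) :
    bar f hf (Ideal.Quotient.mk _ a) = f a := rfl

/-- the points -/
noncomputable def pt {r : ℕ} {T : Type} [CommRing T] [IsDomain T] [Algebra k T]
    (f : SS k r →ₐ[k] T) (hf : commIdeal k r ≤ RingHom.ker f) :
    PrimeSpectrum (SS k r ⧸ (commIdeal k r).radical) :=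
  ⟨RingHom.ker (bar f hf).toRingHom, RingHom.ker_isPrime _⟩

theorem exists_field {R : Type} [CommRing R] [Algebra k R] (Q : PrimeSpectrum R) :
    ∃ (K : Type) (_ : Field K) (_ : Algebra k K) (g : R →ₐ[k] K),
      ∀ a, g a = 0 ↔ a ∈ Q.asIdeal := by
  have := Q.2
  letI : Algebra k Q.asIdeal.ResidueField :=
    ((algebraMap R Q.asIdeal.ResidueField).comp (algebraMap k R)).toAlgebra
  refine ⟨Q.asIdeal.ResidueField, inferInstance, inferInstance,
    { algebraMap R Q.asIdeal.ResidueField with commutes' := fun _ => rfl }, ?_⟩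
  intro a
  exact Ideal.algebraMap_residueField_eq_zero

theorem pt_min (q : ℕ) : IsMin (pt (phi k q) (phi_le k q)) := by
  intro Q hQ
  obtain ⟨K, _, _, g, hg⟩ := exists_field (k := k) Q
  let mk : SS k (q + 1) →ₐ[k] (SS k (q + 1) ⧸ (commIdeal k (q + 1)).radical) :=
    Ideal.Quotient.mkₐ k _
  let f : SS k (q + 1) →ₐ[k] K := g.comp mk
  have hf0 : ∀ a : SS k (q + 1), f a = 0 ↔ mk a ∈ Q.asIdeal := fun a => hg (mk a)
  have hle : commIdeal k (q + 1) ≤ RingHom.ker f := by
    intro a ha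
    change f a = 0
    rw [hf0]
    have : mk a = 0 := by
      change Ideal.Quotient.mk _ a = 0
      rw [Ideal.Quotient.eq_zero_iff_mem]
      exact Ideal.le_radical ha
    rw [this]
    exact Q.asIdeal.zero_mem
  have hne : ∀ a : SS k (q + 1), phi k q a ≠ 0 → f a ≠ 0 := by
    intro a ha hfa
    rw [hf0] at hfa
    have h1 := hQ hfa
    exact ha h1
  obtain ⟨δ, hδ⟩ := factor q f hle
    (hne _ (by
      rw [phi, MvPolynomial.aeval_X]
      simp [EE, cc]))
    (hne _ (by
      rw [phi, MvPolynomial.aeval_X]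
      simp [EE, cc]))
    (hne _ (by
      rw [phi, MvPolynomial.aeval_X]
      simp [EE, cc]))
  intro x hx
  obtain ⟨a, rfl⟩ := Ideal.Quotient.mk_surjective x
  have h1 : phi k q a = 0 := hx
  have h2 : f a = 0 := by
    rw [← hδ, AlgHom.comp_apply, h1, map_zero]
  exact (hf0 a).mp h2

/-- the origin -/
noncomputable def eps (k : Type) [Field k] (r : ℕ) : SS k r →ₐ[k] k :=
  MvPolynomial.aeval fun _ => 0

theorem eps_le (k : Type) [Field k] (r : ℕ) : commIdeal k r ≤ RingHom.ker (eps k r) := by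
  apply le_of_eqs
  · intro a i j _
    rw [eps, MvPolynomial.aeval_X]
  · intro a b
    simp only [eps, MvPolynomial.aeval_X]
    refine ⟨?_, ?_, ?_⟩ <;> simp

theorem eps_max (k : Type) [Field k] (r : ℕ) : IsMax (pt (eps k r) (eps_le k r)) := by
  rw [PrimeSpectrum.isMax_iff]
  apply RingHom.ker_isMaximal_of_surjective
  intro c
  refine ⟨algebraMap k _ c, ?_⟩
  exact (bar (eps k r) (eps_le k r)).commutes c

theorem phi_le_eps (q : ℕ) : pt (phi k q) (phi_le k q) ≤ pt (eps k (q + 1)) (eps_le k (q + 1)) := by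
  have hcomp : eps k (q + 1) = (MvPolynomial.aeval (fun _ => (0 : k)) :
      MvPolynomial (TT q) k →ₐ[k] k).comp (phi k q) := by
    apply MvPolynomial.algHom_ext
    rintro ⟨a, i, j⟩
    rw [AlgHom.comp_apply, phi, MvPolynomial.aeval_X, eps, MvPolynomial.aeval_X]
    have h := map_EE (MvPolynomial.aeval (fun _ => (0 : k)) :
      MvPolynomial (TT q) k →ₐ[k] k).toRingHom (fun t => MvPolynomial.X (Sum.inl t))
      (cc (fun b t => MvPolynomial.X (Sum.inr (b, t))) a) i j
    refine (Eq.trans h ?_).symm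
    simp [EE]
  intro x hx
  obtain ⟨a, rfl⟩ := Ideal.Quotient.mk_surjective x
  have h1 : phi k q a = 0 := hx
  change eps k (q + 1) a = 0
  rw [hcomp, AlgHom.comp_apply, h1, map_zero]

theorem height_eps (k : Type) [Field k] (r : ℕ) :
    ((4 * r : ℕ) : ℕ∞) ≤ Order.height (pt (eps k r) (eps_le k r)) := by
  classical
  have hs : Function.Surjective (bar (theta k r) (theta_le k r)).toRingHom := by
    intro y
    obtain ⟨a, ha⟩ := theta_surj k r y
    exact ⟨Ideal.Quotient.mk _ a, ha⟩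
  have h1 := le_height (bar (theta k r) (theta_le k r)).toRingHom hs
    (Finset.univ : Finset (Fin r × Fin 2 × Fin 2))
  have hc : (Finset.univ : Finset (Fin r × Fin 2 × Fin 2)).card = 4 * r := by
    simp
    ring
  rw [hc] at h1
  refine h1.trans (Order.height_mono ?_)
  intro x hx
  obtain ⟨a, rfl⟩ := Ideal.Quotient.mk_surjective x
  have h2 : ev k Finset.univ (theta k r a) = 0 := hx
  change eps k r a = 0
  have hcomp : (Algebra.ofId k (MvPolynomial (Fin r × Fin 2 × Fin 2) k)).comp (eps k r) =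
      (ev k Finset.univ).comp (theta k r) := by
    apply MvPolynomial.algHom_ext
    rintro ⟨a, i, j⟩
    rw [AlgHom.comp_apply, AlgHom.comp_apply, eps, MvPolynomial.aeval_X, theta,
      MvPolynomial.aeval_X, map_zero]
    split_ifs with h
    · rw [ev, MvPolynomial.aeval_X, if_pos (Finset.mem_univ _)]
    · rw [map_zero]
  have h3 : algebraMap k (MvPolynomial (Fin r × Fin 2 × Fin 2) k) (eps k r a) = 0 := by
    have := DFunLike.congr_fun hcomp a
    rw [AlgHom.comp_apply, AlgHom.comp_apply, h2] at this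
    exact this
  exact (map_eq_zero_iff _ (FaithfulSMul.algebraMap_injective k _)).mp h3

theorem main (r : ℕ) (hr : 4 ≤ r) {H : Type} [CommRing H] [IsNoetherianRing H]
    (ψ : H →+* MvPolynomial (Fin r × Fin 4 × Fin 4) k ⧸ (commIdeal k r).radical)
    (hker : RingHom.ker ψ ≤ nilradical H)
    (hψ : ∀ x, ∃ n > 0, x ^ n ∈ ψ.range) : ¬ IsCM H := by
  obtain ⟨q, rfl⟩ : ∃ q, r = q + 1 := ⟨r - 1, by omega⟩
  refine not_isCM ψ hψ hker (pt (phi k q) (phi_le k q)) (pt (eps k (q + 1)) (eps_le k (q + 1)))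
    (pt_min q) (eps_max k (q + 1)) (phi_le_eps q) (6 + q * 3) (4 * (q + 1)) (by omega) ?_
    (height_eps k (q + 1))
  have h := coheight_le (bar (phi k q) (phi_le k q)) (pt (phi k q) (phi_le k q)) rfl
  simpa using h

end Pool.Agent.H989R3.CMF
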